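import Pool.Agent.Helper431.CycleIso
import Pool.Agent.Helper431.Core5

/-!
# Mixed metric dimension and cyclomatic number

The combinatorial core is the theorem `Pool.Agent.Helper431.core` of the starting library, proved
there for the vertex and edge metric dimensions.
-/

set_option autoImplicit false

open SimpleGraph

namespace Pool.Agent.Results.MP_ca4ce9_co.MixedBound

section Defs

variable {V : Type*} (G : SimpleGraph V)

/-- The distance from `w` to the edge `e = uv` is `min (d(w,u)) (d(w,v))`. -/
noncomputable def edgeDist (w : V) (e : Sym2 V) : ℕ :=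
  Sym2.lift ⟨fun u v => min (G.dist w u) (G.dist w v), fun _ _ => min_comm _ _⟩ e

/-- The distance from `w` to a vertex or an edge. -/
noncomputable def elemDist (w : V) : V ⊕ G.edgeSet → ℕ :=
  Sum.elim (fun v => G.dist w v) fun e => edgeDist G w e.1

/-- `S` is a mixed resolving set: it distinguishes any two distinct elements of `V(G) ∪ E(G)`. -/
def IsMixedResolving (S : Finset V) : Prop :=
  ∀ x y : V ⊕ G.edgeSet, x ≠ y → ∃ s ∈ S, elemDist G s x ≠ elemDist G s y

/-- The mixed metric dimension. -/
noncomputable def mdim : ℕ := sInf {k : ℕ | ∃ S : Finset V, IsMixedResolving G S ∧ S.card = k}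

/-- `G` is 2-connected: it is connected, has at least three vertices and no cut-vertex. -/
def Is2Connected : Prop := 3 ≤ Nat.card V ∧ G.Connected ∧ ∀ v : V, (G.induce {v}ᶜ).Connected

/-- The cyclomatic number `|E| - |V| + 1`. -/
noncomputable def cyc : ℤ := (G.edgeSet.ncard : ℤ) - (Nat.card V : ℤ) + 1

end Defs

theorem isMixedResolving_of {V : Type*} {G : SimpleGraph V} {S : Finset V}
    (h : Pool.Agent.Helper431.MR G (S : Set V)) : IsMixedResolving G S := by
  have hve : ∀ (x : V) (e : G.edgeSet), ∃ s ∈ S, G.dist s x ≠ edgeDist G s e.1 := by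
    rintro x ⟨e, he⟩
    induction e using Sym2.inductionOn with
    | hf a b =>
      obtain ⟨s, hs, h1⟩ := h.ve x a b he
      exact ⟨s, hs, h1⟩
  rintro (x | e) (y | f) hne
  · obtain ⟨s, hs, h1⟩ := h.vv x y fun h => hne (by rw [h])
    exact ⟨s, hs, h1⟩
  · exact hve x f
  · obtain ⟨s, hs, h1⟩ := hve y e
    exact ⟨s, hs, h1.symm⟩
  · obtain ⟨e, he⟩ := e
    obtain ⟨f, hf⟩ := f
    induction e using Sym2.inductionOn with
    | hf a b =>
      induction f using Sym2.inductionOn with
      | hf c d =>
        obtain ⟨s, hs, h1⟩ := h.ee a b c d he hf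
          (fun h => hne (by
            obtain ⟨rfl, rfl⟩ := h
            rfl))
          (fun h => hne (by
            obtain ⟨rfl, rfl⟩ := h
            congr 2
            exact Sym2.eq_swap))
        exact ⟨s, hs, h1⟩

theorem mdim_le {V : Type*} [Finite V] (G : SimpleGraph V) (hc : G.Connected)
    (hdeg : ∀ v, 2 ≤ (G.neighborSet v).ncard) (hcycle : ∀ n : ℕ, IsEmpty (G ≃g cycleGraph n)) :
    (mdim G : ℤ) ≤ 2 * cyc G := by
  classical
  have := Fintype.ofFinite V
  have hd : ∀ v, G.degree v = (G.neighborSet v).ncard := by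
    intro v
    rw [← card_neighborFinset_eq_degree, ← Set.ncard_coe_finset, coe_neighborFinset]
  have hdeg' : ∀ v, 2 ≤ G.degree v := fun v => by rw [hd]; exact hdeg v
  have h3 : ∃ v : V, 3 ≤ G.degree v := by
    by_contra hcon
    push Not at hcon
    obtain ⟨n, ⟨e⟩⟩ := Pool.Agent.Helper431.exists_iso_cycleGraph hc hdeg'
      (fun v => by have := hcon v; omega)
    exact (hcycle n).false e
  obtain ⟨r, S, -, hcard, hMR, -⟩ := Pool.Agent.Helper431.core hc hdeg' h3
  have h1 : mdim G ≤ S.card := Nat.sInf_le ⟨S, isMixedResolving_of hMR, rfl⟩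
  have h2 : G.edgeSet.ncard = G.edgeFinset.card := by
    rw [← Set.ncard_coe_finset, coe_edgeFinset]
  unfold cyc
  rw [h2, Nat.card_eq_fintype_card]
  omega

theorem two_le_degree {V : Type*} [Finite V] {G : SimpleGraph V} (h : Is2Connected G) (v : V) :
    2 ≤ (G.neighborSet v).ncard := by
  classical
  have := Fintype.ofFinite V
  obtain ⟨hcard, hc, h2⟩ := h
  rw [Nat.card_eq_fintype_card] at hcard
  have hnt : Nontrivial V := Fintype.one_lt_card_iff_nontrivial.mp (by omega)
  by_contra hlt
  push Not at hlt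
  -- a neighbour `u` of `v`
  obtain ⟨u, hu⟩ : ∃ u, G.Adj v u := hc.preconnected.exists_adj_of_nontrivial v
  have hall : ∀ x, G.Adj v x → x = u := by
    intro x hx
    have h1 : (G.neighborSet v).ncard ≤ 1 := by omega
    exact (Set.ncard_le_one (Set.toFinite _)).mp h1 x hx u hu
  -- a third vertex
  obtain ⟨w, hw⟩ : ∃ w, w ∉ ({u, v} : Finset V) := by
    by_contra hall
    push Not at hall
    have h1 : (Finset.univ : Finset V) ⊆ {u, v} := fun x _ => hall x
    have h3 := Finset.card_le_card h1
    have h4 := Finset.card_le_two (a := u) (b := v)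
    rw [Finset.card_univ] at h3
    omega
  simp only [Finset.mem_insert, Finset.mem_singleton, not_or] at hw
  obtain ⟨p⟩ := (h2 u).preconnected ⟨v, hu.ne⟩ ⟨w, hw.1⟩
  cases p with
  | nil => exact hw.2 rfl
  | @cons _ x _ hadj q =>
    have h5 : G.Adj v x.1 := hadj
    exact x.2 (hall _ h5)

/-- Every connected graph with minimum degree at least two which is not a cycle, in particular every
2-connected graph which is not a cycle, satisfies `mdim(G) ≤ 2 c(G)`. -/
theorem result (V : Type*) [Finite V] (G : SimpleGraph V)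
    (hcycle : ∀ n : ℕ, IsEmpty (G ≃g cycleGraph n)) :
    (Is2Connected G → (mdim G : ℤ) ≤ 2 * cyc G) ∧
      (G.Connected → (∀ v, 2 ≤ (G.neighborSet v).ncard) → (mdim G : ℤ) ≤ 2 * cyc G) :=
  ⟨fun h => mdim_le G h.2.1 (two_le_degree h) hcycle, fun h1 h2 => mdim_le G h1 h2 hcycle⟩

end Pool.Agent.Results.MP_ca4ce9_co.MixedBound
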